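import Pool.Agent.Helper62.IX.Stm
import Pool.Agent.Helper38.GX.Data

/-! # Package I2 (I_Data) -/

set_option autoImplicit false
set_option linter.unusedSectionVars false

open Polynomial Matrix Finset

namespace Pool.Agent.Helper38.IX

open Pool.Agent.Helper62.BM Pool.Agent.Helper62.BW Pool.Agent.Helper62.BX Pool.Agent.Helper62.CX
  Pool.Agent.Helper62.VX Pool.Agent.Helper62.GX Pool.Agent.Helper62.IX Pool.Agent.Helper82.CX
  Pool.Agent.Helper38.GX

section

variable {ι : Type} [Fintype ι] [DecidableEq ι] {A : Type} [CommRing A] [IsDomain A]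
  {nd : ι → ℕ} {i₁ i₂ : ι} {a : ι → A[X][X]} {t₀ x₀ : A} {a₁ : ι → A[X]}

theorem sum_ind_mul (ρ : ι → ℕ) (h : i₁ ≠ i₂) :
    ∑ l, ρ l * (if l = i₁ ∨ l = i₂ then 1 else 0 : ℕ) = ρ i₁ + ρ i₂ := by
  have h1 : ∑ l, ρ l * (if l = i₁ ∨ l = i₂ then 1 else 0 : ℕ) =
      ∑ l ∈ ({i₁, i₂} : Finset ι), ρ l := by
    rw [← Finset.sum_filter_add_sum_filter_not univ (fun l => l = i₁ ∨ l = i₂)]
    have h2 : ∑ l ∈ univ.filter (fun l => ¬ (l = i₁ ∨ l = i₂)),
        ρ l * (if l = i₁ ∨ l = i₂ then 1 else 0 : ℕ) = 0 := by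
      refine Finset.sum_eq_zero fun l hl => ?_
      rw [if_neg (Finset.mem_filter.1 hl).2, mul_zero]
    have h3 : (univ.filter fun l => l = i₁ ∨ l = i₂) = {i₁, i₂} := by
      ext l; simp
    rw [h2, add_zero, h3]
    refine Finset.sum_congr rfl fun l hl => ?_
    rw [Finset.mem_insert, Finset.mem_singleton] at hl
    rw [if_pos hl, mul_one]
  rw [h1, Finset.sum_pair h]

/-- `∑ ρ_l nd_l = ∑ ρ_l deg a₁_l + m`. -/
theorem node_wsum {m : ℕ} {ρ : ι → ℕ} (hρm : ρ i₁ + ρ i₂ = m) (hG : GenG nd a)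
    (hN : NodeG i₁ i₂ a t₀ x₀ a₁) :
    ∑ l, ρ l * nd l = ∑ l, ρ l * (a₁ l).natDegree + m := by
  rw [← hρm, ← sum_ind_mul ρ hN.1, ← Finset.sum_add_distrib]
  refine Finset.sum_congr rfl fun l _ => ?_
  rw [← (node_deg hG hN l).2, Nat.mul_add]

end

theorem i_Data (hStab : I_Stab) (hLoc : G_Loc) (hRk : G_Rk) : I_Data := by
  intro ι _ _ A _ _ _ m n ρ nd c i₁ i₂ hρ hρm hn hN hcm a hG T hT t₀ x₀ a₁ hNd
  obtain ⟨w, P, S, hw, hR⟩ := hLoc ι A m (n + 1) ρ nd i₁ i₂ hρ hρm hN a hG t₀ x₀ a₁ hNd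
  obtain ⟨ν, hν, hRk'⟩ := hRk ι A m (n + 1) ρ nd i₁ i₂ hρ hρm hN a hG t₀ x₀ a₁ hNd w P S hR
  have hHor := hStab ι A m n ρ nd c hρ hN hcm a hG T hT _ P S hR
  have hmon : ∀ l, (a₁ l).Monic := fun l => (node_deg hG hNd l).1
  have hsum := node_sum hG hNd
  obtain ⟨U, hU⟩ : ∃ U : A[X], U = LamG (fun j => m - ρ j) a₁ (fun j => derivative (a₁ j)) :=
    ⟨_, rfl⟩
  have hUd : U.natDegree ≤ ∑ j, (a₁ j).natDegree - 1 := by rw [hU]; exact lam_deg _ hmon
  have hUc0 : U.coeff (∑ j, (a₁ j).natDegree - 1) ≠ 0 := by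
    rw [hU, lam_coeff _ hmon, Nat.cast_ne_zero]
    intro h0
    have h1 : ∑ j, (a₁ j).natDegree = 0 := by
      refine Finset.sum_eq_zero fun l hl => ?_
      have h2 := (Finset.sum_eq_zero_iff.1 h0) l hl
      rcases Nat.mul_eq_zero.1 h2 with h3 | h3
      · have := (hρ l).2
        omega
      · exact h3
    omega
  obtain ⟨V, hV⟩ : ∃ V : A[X], V = (X - Polynomial.C x₀) * U := ⟨_, rfl⟩
  have hVd : V.natDegree < n + 1 := by
    have h1 : V.natDegree ≤ 1 + U.natDegree := by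
      rw [hV]
      refine natDegree_mul_le.trans ?_
      rw [natDegree_X_sub_C]
    omega
  have hV0 : V.eval x₀ = 0 := by
    rw [hV, eval_mul, eval_sub, eval_X, eval_C, sub_self, zero_mul]
  have hVc : V.coeff n ≠ 0 := by
    have h1 : n = (∑ j, (a₁ j).natDegree - 1) + 1 := by omega
    have h2 : U.coeff (∑ j, (a₁ j).natDegree - 1 + 1) = 0 :=
      coeff_eq_zero_of_natDegree_lt (by omega)
    rw [h1, hV, sub_mul, coeff_sub, coeff_X_mul, coeff_C_mul, h2, mul_zero, sub_zero]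
    exact hUc0
  have hm : m ≠ 0 := by have := hρ i₁; omega
  have hc0 : c ≠ 0 := by
    intro h0
    rw [h0, node_wsum hρm hG hNd] at hcm
    have h1 : ∑ l, ρ l * (a₁ l).natDegree = 0 := by
      have : ((0 : Fin (n + 1)) : ℕ) = 0 := rfl
      rw [this] at hcm
      omega
    have h2 : ∑ l, (a₁ l).natDegree = 0 := by
      refine Finset.sum_eq_zero fun l hl => ?_
      have h3 := (Finset.sum_eq_zero_iff.1 h1) l hl
      rcases Nat.mul_eq_zero.1 h3 with h4 | h4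
      · have := (hρ l).1
        omega
      · exact h4
    omega
  have hκ : (ν : A) * w.eval t₀ ≠ 0 := mul_ne_zero (Nat.cast_ne_zero.2 hν.ne') hw
  have hμ : (m : A) ^ 2 * (∏ j, a₁ j).eval x₀ ≠ 0 :=
    mul_ne_zero (pow_ne_zero 2 (Nat.cast_ne_zero.2 hm)) hNd.2.2.2
  have hM : ∀ i l : Fin (n + 1), (m : A) ^ 2 * (∏ j, a₁ j).eval x₀ * (Mc P S i l).eval t₀ =
      (ν : A) * w.eval t₀ * V.coeff i * x₀ ^ (l : ℕ) := by
    intro i l
    have h1 := hRk' i l
    rw [← hU, ← hV] at h1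
    exact h1
  obtain ⟨R, hRd⟩ : ∃ R : ℕ → A, R = fun l => (res (c : ℕ) T l).eval t₀ := ⟨_, rfl⟩
  have hRc : R c = 1 := by
    rw [hRd]
    simp only [res, lt_irrefl, if_false, Nat.sub_self]
    rw [hT.1, eval_one]
  have hR0 : R 0 = 0 := by
    rw [hRd]
    have h1 : 0 < (c : ℕ) := Nat.pos_of_ne_zero fun h => hc0 (Fin.ext h)
    simp only [res, h1, if_true, eval_zero]
  -- the functional is orthogonal to `r`
  have horth : ∑ j : Fin (n + 1), R j * V.coeff j = 0 := by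
    have h1 := congrArg (fun q => (m : A) ^ 2 * (∏ j, a₁ j).eval x₀ * q.eval t₀) (hHor 0)
    simp only [eval_mul, eval_sub, eval_X, eval_C, sub_self, zero_mul, mul_zero] at h1
    rw [eval_finsetSum, Finset.mul_sum] at h1
    have h2 : (ν : A) * w.eval t₀ * ∑ j : Fin (n + 1), R j * V.coeff j = 0 := by
      rw [h1, Finset.mul_sum]
      refine Finset.sum_congr rfl fun j _ => ?_
      have h3 := hM j 0
      rw [eval_mul]
      have e : ((0 : Fin (n + 1)) : ℕ) = 0 := rfl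
      rw [e, pow_zero, mul_one] at h3
      rw [hRd]
      linear_combination -((res (c : ℕ) T j).eval t₀) * h3
    rcases mul_eq_zero.1 h2 with h3 | h3
    · exact absurd h3 hκ
    · exact h3
  rw [Fin.sum_univ_succAbove _ c, hRc, one_mul] at horth
  have heval : ∑ i : Fin (n + 1), x₀ ^ (i : ℕ) * V.coeff (i : ℕ) = 0 := by
    rw [eval_eq_sum_range' hVd, ← Fin.sum_univ_eq_sum_range (fun i => V.coeff i * x₀ ^ i)] at hV0
    rw [← hV0]
    exact Finset.sum_congr rfl fun i _ => mul_comm _ _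
  rw [Fin.sum_univ_succAbove _ c] at heval
  refine ⟨⟨MI c T (Mc P S), w, t₀,
    fun j => x₀ ^ (c.succAbove j : ℕ) - R (c.succAbove j) * x₀ ^ (c : ℕ),
    fun i => V.coeff (c.succAbove i),
    (m : A) ^ 2 * (∏ j, a₁ j).eval x₀, (ν : A) * w.eval t₀⟩, P, S,
    ⟨hG, hN, hcm, hT, hR, hHor, rfl⟩, hw, hμ, hκ, ?_, ?_, ?_, ?_⟩
  · intro h
    obtain ⟨j, hj⟩ := Fin.exists_succAbove_eq (x := (0 : Fin (n + 1))) (y := c) (Ne.symm hc0)
    have h1 := congrFun h j
    simp only [hj, Pi.zero_apply] at h1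
    have e : ((0 : Fin (n + 1)) : ℕ) = 0 := rfl
    rw [e, pow_zero, hR0, zero_mul, sub_zero] at h1
    exact one_ne_zero h1
  · intro h
    have h1 : ∀ j, V.coeff (c.succAbove j : ℕ) = 0 := fun j => congrFun h j
    have h2 : V.coeff (c : ℕ) = 0 := by
      rw [Finset.sum_eq_zero fun j _ => by rw [h1 j, mul_zero], add_zero] at horth
      exact horth
    apply hVc
    by_cases hcn : c = Fin.last n
    · rw [hcn, Fin.val_last] at h2
      exact h2
    · obtain ⟨j, hj⟩ := Fin.exists_succAbove_eq (x := Fin.last n) (y := c) (Ne.symm hcn)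
      have h3 := h1 j
      rw [hj, Fin.val_last] at h3
      exact h3
  · show ∑ j : Fin n, (x₀ ^ (c.succAbove j : ℕ) - R (c.succAbove j) * x₀ ^ (c : ℕ)) *
      V.coeff (c.succAbove j : ℕ) = 0
    have h1 : ∑ j : Fin n, (x₀ ^ (c.succAbove j : ℕ) - R (c.succAbove j) * x₀ ^ (c : ℕ)) *
        V.coeff (c.succAbove j : ℕ) =
        ∑ j : Fin n, x₀ ^ (c.succAbove j : ℕ) * V.coeff (c.succAbove j : ℕ) -
          x₀ ^ (c : ℕ) * ∑ j : Fin n, R (c.succAbove j) * V.coeff (c.succAbove j : ℕ) := by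
      rw [Finset.mul_sum, ← Finset.sum_sub_distrib]
      exact Finset.sum_congr rfl fun j _ => by ring
    rw [h1]
    linear_combination heval - x₀ ^ (c : ℕ) * horth
  · intro i j
    show (m : A) ^ 2 * (∏ j, a₁ j).eval x₀ *
      (Mc P S (c.succAbove i) (c.succAbove j) -
        res (c : ℕ) T (c.succAbove j) * Mc P S (c.succAbove i) c).eval t₀ =
      (ν : A) * w.eval t₀ * V.coeff (c.succAbove i) *
        (x₀ ^ (c.succAbove j : ℕ) - R (c.succAbove j) * x₀ ^ (c : ℕ))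
    rw [eval_sub, eval_mul, hRd]
    linear_combination hM (c.succAbove i) (c.succAbove j) -
      (res (c : ℕ) T (c.succAbove j)).eval t₀ * hM (c.succAbove i) c

end Pool.Agent.Helper38.IX
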